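import Mathlib
set_option autoImplicit false

/-! A sequence in which every finite pattern occurs with positive lower density, and the same
sequence with long gaps. -/

namespace Pool.Agent.X333.FHC

open Filter Topology

/-- the pattern number `k`, of length `k` and with entries at most `k` -/
noncomputable def v (k j : ℕ) : ℝ :=
  if j < k ∧ |(((Denumerable.ofNat (List ℚ) k.unpair.1).getD j 0 : ℚ) : ℝ)| ≤ k then
    (((Denumerable.ofNat (List ℚ) k.unpair.1).getD j 0 : ℚ) : ℝ) else 0

lemma abs_v_le (k j : ℕ) : |v k j| ≤ k := by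
  unfold v
  split_ifs with h
  · exact h.2
  · simp

lemma exists_bound (l : List ℚ) : ∃ M : ℕ, ∀ j, |((l.getD j 0 : ℚ) : ℝ)| ≤ M := by
  induction l with
  | nil => exact ⟨0, fun j => by simp⟩
  | cons a l ih =>
    obtain ⟨M, hM⟩ := ih
    obtain ⟨A, hA⟩ := exists_nat_ge |(a : ℝ)|
    refine ⟨max M A, fun j => ?_⟩
    rcases j with _ | j
    · simp only [List.getD_cons_zero]
      exact hA.trans (by exact_mod_cast le_max_right M A)
    · simp only [List.getD_cons_succ]
      exact (hM j).trans (by exact_mod_cast le_max_left M A)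

lemma exists_v (l : List ℚ) (k0 : ℕ) : ∃ k, k0 ≤ k ∧ ∀ j, j < k → v k j = (l.getD j 0 : ℚ) := by
  obtain ⟨M, hM⟩ := exists_bound l
  obtain ⟨e, he⟩ : ∃ e, Denumerable.ofNat (List ℚ) e = l :=
    ⟨Denumerable.eqv (List ℚ) l, (Denumerable.eqv (List ℚ)).symm_apply_apply l⟩
  refine ⟨Nat.pair e (max k0 M), ?_, fun j hj => ?_⟩
  · exact (le_max_left _ _).trans (Nat.right_le_pair _ _)
  · have h1 : (M : ℝ) ≤ (Nat.pair e (max k0 M) : ℕ) := by
      exact_mod_cast (le_max_right k0 M).trans (Nat.right_le_pair _ _)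
    unfold v
    rw [Nat.unpair_pair]
    simp only [he]
    rw [if_pos ⟨hj, (hM j).trans h1⟩]

/-- lengths of the words -/
def h : ℕ → ℕ
  | 0 => 0
  | K + 1 => 2 * h K + 2 * K

lemma h_eq (K : ℕ) : h K + 2 * K + 2 = 2 ^ (K + 1) := by
  induction K with
  | zero => simp [h]
  | succ K ih =>
    rw [pow_succ, ← ih]
    simp only [h]
    ring

lemma h_succ (K : ℕ) : h (K + 1) = 2 * h K + 2 * K := rfl

lemma h_mono {a b : ℕ} (hab : a ≤ b) : h a ≤ h b := by
  induction hab with
  | refl => exact le_rfl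
  | step _ ih =>
    refine ih.trans ?_
    rw [h_succ]
    omega

lemma lt_h (n : ℕ) : n < h (n + 2) := by
  induction n with
  | zero => simp [h]
  | succ n ih =>
    rw [show n + 1 + 2 = (n + 2) + 1 by ring, h_succ]
    omega

/-- the words -/
noncomputable def w : ℕ → ℕ → ℝ
  | 0, _ => 0
  | K + 1, n => if n < h K then w K n else if n < h K + K then 0 else
      if n < h K + 2 * K then v K (n - (h K + K)) else w K (n - (h K + 2 * K))

lemma w_succ (K n : ℕ) : w (K + 1) n = if n < h K then w K n else if n < h K + K then 0 else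
      if n < h K + 2 * K then v K (n - (h K + K)) else w K (n - (h K + 2 * K)) := rfl

lemma abs_w_le (K n : ℕ) : |w K n| ≤ K := by
  induction K generalizing n with
  | zero => simp [w]
  | succ K ih =>
    have hK : (K : ℝ) ≤ (K + 1 : ℕ) := by push_cast; linarith
    have h0 : (0 : ℝ) ≤ (K + 1 : ℕ) := by positivity
    rw [w_succ]
    split_ifs
    · exact (ih _).trans hK
    · simpa using h0
    · exact (abs_v_le _ _).trans hK
    · exact (ih _).trans hK

lemma w_stable {K K' n : ℕ} (hn : n < h K) (hK : K ≤ K') : w K' n = w K n := by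
  induction hK with
  | refl => rfl
  | step hle ih =>
    rw [Nat.succ_eq_add_one, w_succ, if_pos (lt_of_lt_of_le hn (h_mono hle)), ih]

/-- `n` is the beginning of a good occurrence of the pattern `k` in the word `K` -/
def Good (k K n : ℕ) : Prop :=
  n + k ≤ h K ∧ (∀ j < k, w K (n + j) = v k j) ∧ ∀ j, k ≤ j → |w K (n + j)| ≤ j

lemma good_base (k : ℕ) : Good k (k + 1) (h k + k) := by
  refine ⟨by rw [h_succ]; omega, fun j hj => ?_, fun j hj => ?_⟩
  · rw [w_succ, if_neg (by omega), if_neg (by omega), if_pos (by omega)]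
    congr 1
    omega
  · rw [w_succ, if_neg (by omega), if_neg (by omega), if_neg (by omega)]
    exact (abs_w_le _ _).trans (by exact_mod_cast hj)

lemma good_left {k K n : ℕ} (hg : Good k K n) : Good k (K + 1) n := by
  obtain ⟨h1, h2, h3⟩ := hg
  refine ⟨by rw [h_succ]; omega, fun j hj => ?_, fun j hj => ?_⟩
  · rw [w_succ, if_pos (by omega)]
    exact h2 j hj
  · rw [w_succ]
    split_ifs with h4 h5 h6
    · exact h3 j hj
    · simp
    · exact (abs_v_le _ _).trans (by exact_mod_cast (by omega))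
    · exact (abs_w_le _ _).trans (by exact_mod_cast (by omega))

lemma good_right {k K n : ℕ} (hg : Good k K n) : Good k (K + 1) (n + (h K + 2 * K)) := by
  obtain ⟨h1, h2, h3⟩ := hg
  have key : ∀ j, w (K + 1) (n + (h K + 2 * K) + j) = w K (n + j) := by
    intro j
    rw [w_succ, if_neg (by omega), if_neg (by omega), if_neg (by omega)]
    congr 1
    omega
  refine ⟨by rw [h_succ]; omega, fun j hj => ?_, fun j hj => ?_⟩
  · rw [key]
    exact h2 j hj
  · rw [key]
    exact h3 j hj

lemma good_le {k K K' n : ℕ} (hK : K ≤ K') (hg : Good k K n) : Good k K' n := by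
  induction hK with
  | refl => exact hg
  | step _ ih => exact good_left ih

open Classical in
lemma count_good {k : ℕ} (hk : 1 ≤ k) (m : ℕ) :
    2 ^ m ≤ ((Finset.range (h (k + 1 + m))).filter (Good k (k + 1 + m))).card := by
  induction m with
  | zero =>
    rw [pow_zero]
    refine Finset.card_pos.2 ⟨h k + k, ?_⟩
    rw [Finset.mem_filter, Finset.mem_range]
    exact ⟨by rw [add_zero, h_succ]; omega, good_base k⟩
  | succ m ih =>
    set K := k + 1 + m with hK
    set F := (Finset.range (h K)).filter (Good k K) with hF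
    have hsub : F ∪ F.image (fun n => n + (h K + 2 * K)) ⊆
        (Finset.range (h (k + 1 + (m + 1)))).filter (Good k (k + 1 + (m + 1))) := by
      intro n hn
      rw [show k + 1 + (m + 1) = K + 1 by omega, Finset.mem_filter, Finset.mem_range, h_succ]
      rcases Finset.mem_union.1 hn with hn | hn
      · rw [hF, Finset.mem_filter, Finset.mem_range] at hn
        exact ⟨by omega, good_left hn.2⟩
      · obtain ⟨n', hn', rfl⟩ := Finset.mem_image.1 hn
        rw [hF, Finset.mem_filter, Finset.mem_range] at hn'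
        exact ⟨by omega, good_right hn'.2⟩
    refine le_trans ?_ (Finset.card_le_card hsub)
    rw [Finset.card_union_of_disjoint, Finset.card_image_of_injective _ (add_left_injective _),
      pow_succ]
    · omega
    · rw [Finset.disjoint_left]
      intro n hn hn2
      obtain ⟨n', hn', rfl⟩ := Finset.mem_image.1 hn2
      rw [hF, Finset.mem_filter, Finset.mem_range] at hn
      omega

/-- the sequence -/
noncomputable def z (n : ℕ) : ℝ := w (n + 2) n

lemma z_eq {K n : ℕ} (hn : n < h K) : z n = w K n := by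
  unfold z
  rcases le_total K (n + 2) with hK | hK
  · exact w_stable hn hK
  · exact (w_stable (lt_h n) hK).symm

lemma abs_z_le (n : ℕ) : |z n| ≤ n + 2 := by
  have := abs_w_le (n + 2) n
  push_cast at this
  exact this

/-- the beginnings of good occurrences of the pattern `k` -/
def R (f : ℕ → ℝ) (k : ℕ) : Set ℕ :=
  {n | (∀ j < k, f (n + j) = v k j) ∧ ∀ j, k ≤ j → |f (n + j)| ≤ j}

lemma good_R {k K n : ℕ} (hg : Good k K n) : n ∈ R z k := by
  refine ⟨fun j hj => ?_, fun j hj => ?_⟩
  · rw [z_eq (K := K) (by have := hg.1; omega)]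
    exact hg.2.1 j hj
  · have h1 := good_le (le_max_left K (n + j + 2)) hg
    rw [z_eq (K := max K (n + j + 2)) (lt_of_lt_of_le (lt_h (n + j)) (h_mono (le_max_right _ _)))]
    exact h1.2.2 j hj

open Classical in
/-- number of elements of `P` below `N` -/
noncomputable def cnt (P : Set ℕ) (N : ℕ) : ℕ := ((Finset.range N).filter (· ∈ P)).card

lemma cnt_mono {P Q : Set ℕ} {N M : ℕ} (h1 : ∀ n ∈ P, n < N → n ∈ Q ∧ n < M) :
    cnt P N ≤ cnt Q M := by
  classical
  unfold cnt
  refine Finset.card_le_card fun n hn => ?_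
  rw [Finset.mem_filter, Finset.mem_range] at hn ⊢
  exact (h1 n hn.2 hn.1).symm

lemma cnt_ge_z {k : ℕ} (hk : 1 ≤ k) {N : ℕ} (hN : h (k + 1) ≤ N) :
    N ≤ 2 ^ (k + 3) * cnt (R z k) N := by
  classical
  obtain ⟨m, hm1, hm2⟩ : ∃ m, h (k + 1 + m) ≤ N ∧ N < h (k + 1 + m + 1) := by
    by_contra hcon
    push Not at hcon
    have : ∀ m, h (k + 1 + m) ≤ N := by
      intro m
      induction m with
      | zero => exact hN
      | succ m ih => exact hcon m ih
    have h1 := this N
    have h2 := lt_h N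
    have h3 : h (N + 2) ≤ h (k + 1 + N) := h_mono (by omega)
    omega
  have h1 : 2 ^ m ≤ cnt (R z k) N := by
    refine (count_good hk m).trans ?_
    unfold cnt
    refine Finset.card_le_card fun n hn => ?_
    rw [Finset.mem_filter, Finset.mem_range] at hn ⊢
    exact ⟨by omega, good_R hn.2⟩
  have h2 := h_eq (k + 1 + m + 1)
  have h3 : 2 ^ (k + 1 + m + 1 + 1) = 2 ^ (k + 3) * 2 ^ m := by
    rw [← pow_add]
    congr 1
    ring
  calc N ≤ 2 ^ (k + 3) * 2 ^ m := by rw [← h3]; omega
    _ ≤ _ := Nat.mul_le_mul_left _ h1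

/-- beginnings of the gaps -/
def g (j : ℕ) : ℕ := (j + 2).factorial

lemma g_succ (j : ℕ) : g (j + 1) = (j + 3) * g j := Nat.factorial_succ (j + 2)

lemma g_pos (j : ℕ) : 0 < g j := Nat.factorial_pos _

lemma g_mono {a b : ℕ} (hab : a ≤ b) : g a ≤ g b := Nat.factorial_le (by omega)

lemma lt_g (j : ℕ) : j < g j := by
  have := Nat.self_le_factorial (j + 2)
  unfold g
  omega

/-- the gaps -/
def G : Set ℕ := {n | ∃ j, g j ≤ n ∧ n < 2 * g j}

lemma not_G {j n : ℕ} (h1 : 2 * g j ≤ n) (h2 : n < g (j + 1)) : n ∉ G := by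
  rintro ⟨i, hi1, hi2⟩
  rcases le_or_gt i j with hij | hij
  · have := g_mono hij
    omega
  · have := g_mono (Nat.succ_le_of_lt hij)
    rw [Nat.succ_eq_add_one] at this
    omega

open Classical in
/-- the sequence with the gaps -/
noncomputable def y (n : ℕ) : ℝ := if n ∈ G then 0 else z n

lemma abs_y_le_z (n : ℕ) : |y n| ≤ |z n| := by
  unfold y
  split_ifs
  · simp
  · exact le_rfl

lemma y_gap {n : ℕ} (hn : n ∈ G) : y n = 0 := if_pos hn

lemma R_y {k n : ℕ} (hn : n ∈ R z k) (hG : ∀ i < k, n + i ∉ G) : n ∈ R y k := by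
  refine ⟨fun j hj => ?_, fun j hj => (abs_y_le_z _).trans (hn.2 j hj)⟩
  rw [← hn.1 j hj]
  exact if_neg (hG j hj)

lemma cnt_y {k j N : ℕ} (hN : N ≤ g (j + 1)) :
    cnt (R z k) (N - k) ≤ cnt (R y k) N + 2 * g j := by
  classical
  have h1 : (Finset.range (N - k)).filter (· ∈ R z k) ⊆
      (Finset.range N).filter (· ∈ R y k) ∪ Finset.range (2 * g j) := by
    intro n hn
    rw [Finset.mem_filter, Finset.mem_range] at hn
    rw [Finset.mem_union, Finset.mem_filter, Finset.mem_range, Finset.mem_range]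
    by_cases hn2 : n < 2 * g j
    · exact Or.inr hn2
    · refine Or.inl ⟨by omega, R_y hn.2 fun i hi => not_G (j := j) (by omega) (by omega)⟩
  refine (Finset.card_le_card h1).trans ((Finset.card_union_le _ _).trans ?_)
  rw [Finset.card_range]
  rfl

/-- every pattern occurs with positive lower density also in the sequence with the gaps -/
lemma cnt_ge_y {k : ℕ} (hk : 1 ≤ k) : ∃ M : ℕ, 0 < M ∧ ∃ N0 : ℕ, ∀ N, N0 ≤ N →
    N ≤ M * cnt (R y k) N := by
  set A := 2 ^ (k + 3) with hA
  have hA1 : 1 ≤ A := Nat.one_le_two_pow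
  refine ⟨8 * A * A, by positivity, g (4 * A + 4 * k + h (k + 1) + 1), fun N hN => ?_⟩
  obtain ⟨j, hj1, hj2⟩ : ∃ j, g j ≤ N ∧ N < g (j + 1) := by
    by_contra hcon
    push Not at hcon
    have : ∀ j, g j ≤ N := by
      intro j
      induction j with
      | zero => exact (g_mono (Nat.zero_le _)).trans hN
      | succ j ih => exact hcon j ih
    exact absurd (this N) (not_le.2 (lt_g N))
  have hj3 : 4 * A + 4 * k + h (k + 1) + 1 ≤ j := by
    by_contra hcon
    have := g_mono (a := j + 1) (b := 4 * A + 4 * k + h (k + 1) + 1) (by omega)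
    omega
  have hgj := lt_g j
  rcases lt_or_ge N (4 * A * g j) with hcase | hcase
  · obtain ⟨i, rfl⟩ : ∃ i, j = i + 1 := ⟨j - 1, by omega⟩
    have h1 : cnt (R z k) (g (i + 1) - k) ≤ cnt (R y k) (g (i + 1)) + 2 * g i := cnt_y le_rfl
    have h2 : cnt (R y k) (g (i + 1)) ≤ cnt (R y k) N := cnt_mono fun n hn hn2 => ⟨hn, by omega⟩
    have h3 : g (i + 1) - k ≤ A * cnt (R z k) (g (i + 1) - k) := cnt_ge_z hk (by omega)
    have h4 := g_succ i
    have h5 : A * cnt (R z k) (g (i + 1) - k) ≤ A * (cnt (R y k) N + 2 * g i) :=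
      Nat.mul_le_mul_left _ (by omega)
    have h6 : 4 * A * g i + 2 * k ≤ g (i + 1) := by
      rw [h4]
      have := g_pos i
      nlinarith
    have h7 : g (i + 1) ≤ 2 * (A * cnt (R y k) N) := by
      have h8 : g (i + 1) - k ≤ A * cnt (R y k) N + 2 * (A * g i) := by
        calc g (i + 1) - k ≤ _ := h3.trans h5
          _ = _ := by ring
      have h9 : 4 * (A * g i) + 2 * k ≤ g (i + 1) := by
        calc _ = 4 * A * g i + 2 * k := by ring
          _ ≤ _ := h6
      omega
    calc N ≤ 4 * A * g (i + 1) := hcase.le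
      _ ≤ 4 * A * (2 * (A * cnt (R y k) N)) := Nat.mul_le_mul_left _ h7
      _ = _ := by ring
  · have h1 : cnt (R z k) (N - k) ≤ cnt (R y k) N + 2 * g j := cnt_y hj2.le
    have h3 : N - k ≤ A * cnt (R z k) (N - k) := cnt_ge_z hk (by omega)
    have h5 : A * cnt (R z k) (N - k) ≤ A * (cnt (R y k) N + 2 * g j) :=
      Nat.mul_le_mul_left _ h1
    have h6 : N ≤ 4 * (A * cnt (R y k) N) := by
      have h7 : N - k ≤ A * cnt (R y k) N + 2 * (A * g j) := by
        calc N - k ≤ _ := h3.trans h5
          _ = _ := by ring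
      have h8 : 4 * (A * g j) ≤ N := by
        calc _ = 4 * A * g j := by ring
          _ ≤ N := hcase
      omega
    calc N ≤ 4 * (A * cnt (R y k) N) := h6
      _ ≤ 8 * A * A * cnt (R y k) N := by
        nlinarith [Nat.zero_le (cnt (R y k) N), Nat.mul_le_mul_right (A * cnt (R y k) N) hA1]

end Pool.Agent.X333.FHC
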