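import Mathlib
import Pool.Agent.X333.FHC.Comb
set_option autoImplicit false

/-! The operator `2B` on `c_0` and the frequently hypercyclic vector with gaps. -/

namespace Pool.Agent.X333.FHC

open Filter Topology
open scoped ZeroAtInfty

/-- `c_0` -/
abbrev E : Type := C₀(ℕ, ℝ)

/-- an element of `c_0` from a null sequence -/
def mk (f : ℕ → ℝ) (hf : Tendsto f atTop (𝓝 0)) : E :=
  ⟨⟨f, continuous_of_discreteTopology⟩, by
    rw [cocompact_eq_cofinite, Nat.cofinite_eq_atTop]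
    exact hf⟩

@[simp] lemma mk_apply (f : ℕ → ℝ) (hf : Tendsto f atTop (𝓝 0)) (n : ℕ) : mk f hf n = f n := rfl

lemma tendsto_E (f : E) : Tendsto f atTop (𝓝 0) := by
  have h := f.zero_at_infty'
  rw [cocompact_eq_cofinite, Nat.cofinite_eq_atTop] at h
  exact h

lemma norm_le_E {f : E} {C : ℝ} (hC : 0 ≤ C) : ‖f‖ ≤ C ↔ ∀ n, |f n| ≤ C := by
  rw [← ZeroAtInftyContinuousMap.norm_toBCF_eq_norm, BoundedContinuousFunction.norm_le hC]
  rfl

lemma abs_le_E (f : E) (n : ℕ) : |f n| ≤ ‖f‖ := (norm_le_E (norm_nonneg f)).1 le_rfl n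

/-- the operator `2B` -/
noncomputable def T : E →L[ℝ] E :=
  LinearMap.mkContinuous
    { toFun := fun f => mk (fun n => 2 * f (n + 1)) (by
        have := ((tendsto_add_atTop_iff_nat 1).2 (tendsto_E f)).const_mul (2 : ℝ)
        simpa using this)
      map_add' := fun f g => by
        ext n
        simp only [mk_apply, ZeroAtInftyContinuousMap.add_apply]
        ring
      map_smul' := fun c f => by
        ext n
        simp only [mk_apply, ZeroAtInftyContinuousMap.smul_apply, smul_eq_mul, RingHom.id_apply]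
        ring } 2 (fun f => by
    rw [norm_le_E (by positivity)]
    intro n
    show |2 * f (n + 1)| ≤ _
    rw [abs_mul, abs_two]
    exact mul_le_mul_of_nonneg_left (abs_le_E f _) (by norm_num))

lemma T_apply (f : E) (n : ℕ) : T f n = 2 * f (n + 1) := rfl

lemma T_iter (k : ℕ) (f : E) (n : ℕ) : (T^[k] f) n = 2 ^ k * f (n + k) := by
  induction k generalizing f with
  | zero => simp
  | succ k ih =>
    rw [Function.iterate_succ_apply, ih, T_apply, pow_succ, ← add_assoc]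
    ring_nf

lemma tendsto_aux : Tendsto (fun n : ℕ => ((n : ℝ) + 2) * (1 / 2) ^ n) atTop (𝓝 0) := by
  have h1 : Tendsto (fun n : ℕ => (n : ℝ) * (1 / 2) ^ n) atTop (𝓝 0) :=
    tendsto_self_mul_const_pow_of_lt_one (by norm_num) (by norm_num)
  have h2 : Tendsto (fun n : ℕ => 2 * (1 / 2 : ℝ) ^ n) atTop (𝓝 0) := by
    simpa using (tendsto_pow_atTop_nhds_zero_of_lt_one (r := (1 / 2 : ℝ)) (by norm_num)
      (by norm_num)).const_mul 2
  have h3 := h1.add h2
  rw [add_zero] at h3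
  refine h3.congr fun n => ?_
  ring

/-- the vector -/
noncomputable def x : E := mk (fun n => y n * (1 / 2) ^ n) (by
  refine squeeze_zero_norm (fun n => ?_) tendsto_aux
  rw [norm_mul, norm_pow, Real.norm_eq_abs, Real.norm_eq_abs]
  rw [abs_of_pos (by norm_num : (0 : ℝ) < 1 / 2)]
  exact mul_le_mul_of_nonneg_right ((abs_y_le_z n).trans (abs_z_le n)) (by positivity))

lemma iter_x (k n : ℕ) : (T^[k] x) n = y (n + k) * (1 / 2) ^ n := by
  rw [T_iter]
  show 2 ^ k * (y (n + k) * (1 / 2) ^ (n + k)) = _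
  rw [pow_add]
  have : (2 : ℝ) ^ k * (1 / 2) ^ k = 1 := by
    rw [← mul_pow]
    norm_num
  linear_combination (y (n + k) * (1 / 2) ^ n) * this

lemma exists_pattern (u : E) {ε : ℝ} (hε : 0 < ε) :
    ∃ k, 1 ≤ k ∧ ∀ n ∈ R y k, ‖T^[n] x - u‖ ≤ ε := by
  obtain ⟨J, hJ⟩ : ∃ J, ∀ j, J ≤ j → |u j| ≤ ε / 2 := by
    have h1 := (tendsto_E u).abs
    rw [abs_zero] at h1
    have h2 := h1.eventually (gt_mem_nhds (half_pos hε))
    obtain ⟨J, hJ⟩ := eventually_atTop.1 h2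
    exact ⟨J, fun j hj => (hJ j hj).le⟩
  obtain ⟨J2, hJ2⟩ : ∃ J2, ∀ j : ℕ, J2 ≤ j → (j : ℝ) * (1 / 2) ^ j ≤ ε / 2 := by
    have h1 : Tendsto (fun n : ℕ => (n : ℝ) * (1 / 2) ^ n) atTop (𝓝 0) :=
      tendsto_self_mul_const_pow_of_lt_one (by norm_num) (by norm_num)
    have h2 := h1.eventually (gt_mem_nhds (half_pos hε))
    obtain ⟨J, hJ⟩ := eventually_atTop.1 h2
    exact ⟨J, fun j hj => (hJ j hj).le⟩
  -- rational approximations
  have hq : ∀ j : ℕ, ∃ q : ℚ, |(q : ℝ) * (1 / 2) ^ j - u j| ≤ ε := by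
    intro j
    obtain ⟨q, hq⟩ := exists_rat_near (2 ^ j * u j) (half_pos hε)
    refine ⟨q, ?_⟩
    have h1 : (q : ℝ) * (1 / 2) ^ j - u j = -((2 ^ j * u j - q) * (1 / 2) ^ j) := by
      have : (2 : ℝ) ^ j * (1 / 2) ^ j = 1 := by
        rw [← mul_pow]
        norm_num
      linear_combination (u j) * this
    rw [h1, abs_neg, abs_mul, abs_of_pos (by positivity : (0 : ℝ) < (1 / 2) ^ j)]
    have h2 : ((1 : ℝ) / 2) ^ j ≤ 1 := pow_le_one₀ (by norm_num) (by norm_num)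
    nlinarith [abs_nonneg (2 ^ j * u j - q)]
  choose q hq using hq
  obtain ⟨k, hk1, hk2⟩ := exists_v (List.ofFn (fun i : Fin J => q i)) (max 1 (max J J2))
  refine ⟨k, (le_max_left _ _).trans hk1, fun n hn => ?_⟩
  rw [norm_le_E hε.le]
  intro j
  show |(T^[n] x) j - u j| ≤ ε
  rw [iter_x, add_comm]
  rcases lt_or_ge j k with hj | hj
  · rw [hn.1 j hj, hk2 j hj]
    rcases lt_or_ge j J with hj2 | hj2
    · have h1 : (List.ofFn (fun i : Fin J => q i)).getD j 0 = q j := by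
        rw [List.getD_eq_getElem _ _ (by simpa using hj2)]
        simp
      rw [h1]
      exact hq j
    · have h1 : (List.ofFn (fun i : Fin J => q i)).getD j 0 = 0 := by
        rw [List.getD_eq_default _ _ (by simpa using hj2)]
      rw [h1, Rat.cast_zero, zero_mul, zero_sub, abs_neg]
      linarith [hJ j hj2]
  · have h1 := hn.2 j hj
    have hjJ : J ≤ j := ((le_max_left J J2).trans (le_max_right 1 _)).trans (hk1.trans hj)
    have hjJ2 : J2 ≤ j := ((le_max_right J J2).trans (le_max_right 1 _)).trans (hk1.trans hj)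
    have h2 : |y (n + j) * (1 / 2) ^ j| ≤ ε / 2 := by
      rw [abs_mul, abs_of_pos (by positivity : (0 : ℝ) < (1 / 2) ^ j)]
      exact (mul_le_mul_of_nonneg_right h1 (by positivity)).trans (hJ2 j hjJ2)
    have h3 := hJ j hjJ
    have h4 := abs_sub (y (n + j) * (1 / 2) ^ j) (u j)
    linarith

lemma fhc (U : Set E) (hU : IsOpen U) (hne : U.Nonempty) :
    ∃ δ : ℝ, 0 < δ ∧ ∀ᶠ n : ℕ in atTop,
      δ * (n : ℝ) ≤ (({k : ℕ | k < n ∧ (⇑T)^[k] x ∈ U}.ncard : ℕ) : ℝ) := by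
  obtain ⟨u, hu⟩ := hne
  obtain ⟨ε, hε, hball⟩ := Metric.isOpen_iff.1 hU u hu
  obtain ⟨k, hk1, hk2⟩ := exists_pattern u (half_pos hε)
  obtain ⟨M, hM, N0, hN0⟩ := cnt_ge_y hk1
  have hM' : (0 : ℝ) < M := by exact_mod_cast hM
  refine ⟨1 / M, by positivity, eventually_atTop.2 ⟨N0, fun N hN => ?_⟩⟩
  have h1 : cnt (R y k) N ≤ {k : ℕ | k < N ∧ (⇑T)^[k] x ∈ U}.ncard := by
    classical
    unfold cnt
    rw [← Set.ncard_coe_finset]
    refine Set.ncard_le_ncard (fun n hn => ?_) ((Set.finite_lt_nat N).subset fun n hn => hn.1)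
    rw [Finset.mem_coe, Finset.mem_filter, Finset.mem_range] at hn
    refine ⟨hn.1, hball ?_⟩
    rw [Metric.mem_ball, dist_eq_norm]
    exact lt_of_le_of_lt (hk2 n hn.2) (half_lt_self hε)
  have h2 : (N : ℝ) ≤ M * cnt (R y k) N := by exact_mod_cast hN0 N hN
  have h3 : ((cnt (R y k) N : ℕ) : ℝ) ≤ ({k : ℕ | k < N ∧ (⇑T)^[k] x ∈ U}.ncard : ℕ) := by
    exact_mod_cast h1
  rw [one_div, inv_mul_le_iff₀ hM']
  exact h2.trans (mul_le_mul_of_nonneg_left h3 hM'.le)

/-- the open set -/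
def U0 : Set E := {f | f 0 ≠ 0}

lemma isOpen_U0 : IsOpen U0 := by
  have h : Continuous (fun f : E => f 0) := by
    rw [Metric.continuous_iff]
    intro b ε hε
    refine ⟨ε, hε, fun a ha => lt_of_le_of_lt ?_ ha⟩
    rw [dist_eq_norm, dist_eq_norm]
    exact abs_le_E (a - b) 0
  exact isOpen_ne.preimage h

lemma nonempty_U0 : U0.Nonempty := by
  refine ⟨mk (fun n => if n = 0 then 1 else 0) ?_, ?_⟩
  · refine tendsto_const_nhds.congr' ?_
    filter_upwards [eventually_gt_atTop 0] with n hn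
    rw [if_neg hn.ne']
  · show (if (0 : ℕ) = 0 then (1 : ℝ) else 0) ≠ 0
    simp

lemma visits_avoid {n : ℕ} (hn : (⇑T)^[n] x ∈ U0) : n ∉ G := by
  intro hG
  refine hn ?_
  show (T^[n] x) 0 = 0
  rw [iter_x, zero_add, y_gap hG, zero_mul]

lemma no_density (A : Set ℕ) (hA : A ⊆ {k : ℕ | (⇑T)^[k] x ∈ U0}) :
    ¬ ∃ d : ℝ, 0 < d ∧ Tendsto (fun n : ℕ => (({k : ℕ | k < n ∧ k ∈ A}.ncard : ℕ) : ℝ) / (n : ℝ))
      atTop (𝓝 d) := by
  rintro ⟨d, hd, hlim⟩
  have hg : Tendsto g atTop atTop :=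
    tendsto_atTop_mono (fun n => (lt_g n).le) tendsto_id
  have hg2 : Tendsto (fun j => 2 * g j) atTop atTop :=
    tendsto_atTop_mono (fun n => by omega) hg
  have h1 := hlim.comp hg
  have h2 := hlim.comp hg2
  have h3 : ((fun n : ℕ => (({k : ℕ | k < n ∧ k ∈ A}.ncard : ℕ) : ℝ) / (n : ℝ)) ∘
      fun j => 2 * g j) = fun j => (((fun n : ℕ =>
        (({k : ℕ | k < n ∧ k ∈ A}.ncard : ℕ) : ℝ) / (n : ℝ)) ∘ g) j) / 2 := by
    funext j
    simp only [Function.comp_apply]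
    have h4 : {k : ℕ | k < 2 * g j ∧ k ∈ A} = {k : ℕ | k < g j ∧ k ∈ A} := by
      ext k
      constructor
      · rintro ⟨hk1, hk2⟩
        refine ⟨?_, hk2⟩
        by_contra hk3
        exact visits_avoid (hA hk2) ⟨j, not_lt.1 hk3, hk1⟩
      · rintro ⟨hk1, hk2⟩
        exact ⟨by omega, hk2⟩
    rw [h4]
    have h5 : (g j : ℝ) ≠ 0 := by exact_mod_cast (g_pos j).ne'
    push_cast
    field_simp
  rw [h3] at h2
  have h4 := tendsto_nhds_unique h2 (h1.div_const 2)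
  linarith

end Pool.Agent.X333.FHC
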